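import Mathlib
import Pool.Agent.Helper42.Th.Defs

/-!
Fillings of crossing balls by solid tori, by pieces with a whole interval of slopes and by
generalized solid tori.
-/

set_option autoImplicit false

namespace Pool.Agent.Helper42.GS

open Pool.Agent.Helper42.Th

/-- The element `x` is a generalized torsion element with respect to the subgroup generated by
`S`: a product of `n ≥ 1` conjugates of `x` by elements of this subgroup is trivial. -/
def Torsion {G : Type*} [Group G] (S : Set G) (x : G) : Prop :=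
  ∃ l : List G, l ≠ [] ∧ (∀ g ∈ l, g ∈ Subgroup.closure S) ∧
    (l.map fun g => g * x * g⁻¹).prod = 1

/-- `Fill m a S`: the elements of the set `S` satisfy the relations of the fundamental group of a
manifold which fills a torus with the peripheral elements `m`, `a`, with positive slopes. -/
inductive Fill {G : Type*} [Group G] : G → G → Set G → Prop
  /-- A solid torus of slope `c / d`. -/
  | solid (m a : G) (d c : ℕ) (hd : 0 < d) (hc : 0 < c) (h : m ^ d = a ^ c) : Fill m a ∅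
  /-- The double cover of the complement of the crossing balls of a diagram, all of which but
  the ball of `δ` (neither a loop nor a bridge) are filled with positive slopes; the slopes of
  the words `m`, `a` are negative. -/
  | cone (m a : G) {E : Type} [Finite E] (Γ : CMap E) (L : Lab G Γ) (δ : E)
      (hl : ∀ i : ℕ, (Γ.rot ^ i) δ ≠ Γ.flip δ) (hb : ∀ i : ℕ, (Γ.dual.rot ^ i) δ ≠ Γ.flip δ)
      (P : Set E) (F : E → Set G) (hP : ∀ d, d ≠ δ → d ≠ Γ.flip δ → d ∈ P ∨ Γ.flip d ∈ P)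
      (hF : ∀ d ∈ P, Fill (L.M d) (L.D d) (F d)) (P₁ Q₁ P₂ Q₂ : ℕ) (hP₁ : 0 < P₁)
      (hQ₁ : 0 < Q₁) (hP₂ : 0 < P₂) (hQ₂ : 0 < Q₂) (hdet : P₁ * Q₂ ≠ P₂ * Q₁)
      (hm : m = L.M δ ^ P₁ * (L.D δ)⁻¹ ^ Q₁) (ha : a = L.M δ ^ P₂ * (L.D δ)⁻¹ ^ Q₂) :
      Fill m a (L.elts ∪ ⋃ d ∈ P, F d)
  /-- A generalized solid torus of slope `c / d`: the same, but the slopes of the words `m`, `a`
  are arbitrary, and the longitude `m ^ d * a ^ (-c)` is a generalized torsion element. -/
  | like (m a : G) {E : Type} [Finite E] (Γ : CMap E) (L : Lab G Γ) (δ : E)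
      (P : Set E) (F : E → Set G) (hP : ∀ d, d ≠ δ → d ≠ Γ.flip δ → d ∈ P ∨ Γ.flip d ∈ P)
      (hF : ∀ d ∈ P, Fill (L.M d) (L.D d) (F d)) (p q r s : ℤ) (hdet : p * s ≠ q * r)
      (hm : m = L.D δ ^ p * L.M δ ^ q) (ha : a = L.D δ ^ r * L.M δ ^ s)
      (d c : ℕ) (hd : 0 < d) (hc : 0 < c)
      (h : Torsion (L.elts ∪ ⋃ d ∈ P, F d) (m ^ d * (a ^ c)⁻¹)) :
      Fill m a (L.elts ∪ ⋃ d ∈ P, F d)

end Pool.Agent.Helper42.GS
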