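import Mathlib
import Pool.Agent.Helper42.PF.Main

/-!
Two commuting automorphisms of a complete linear order, a word in which has fixed points.
-/

set_option autoImplicit false

namespace Pool.Agent.Helper42.GS

open Pool.Agent.Helper31.OrderAct
open Pool.Agent.Helper71.Rot
open Pool.Agent.Helper71.Tree

variable {Ω : Type*} [CompleteLinearOrder Ω] {x y : Ω ≃o Ω}

lemma root_fix {f : Ω ≃o Ω} {n : ℕ} (hn : 0 < n) {w : Ω} (h : (f ^ n) w = w) : f w = w := by
  obtain ⟨m, rfl⟩ : ∃ m, n = m + 1 := ⟨n - 1, by omega⟩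
  rw [pow_succ', RelIso.mul_apply] at h
  rcases lt_trichotomy (f w) w with h3 | h3 | h3
  · exact absurd h (((f.monotone (pow_le h3.le m)).trans_lt h3).ne)
  · exact h3
  · exact absurd h ((h3.trans_le (f.monotone (pow_ge h3.le m))).ne')

/-- The supremum of an orbit. -/
lemma sup_fix (hc : Commute x y) {d c : ℕ} (hd : 0 < d) {w : Ω}
    (hw : (x ^ d) w = (y ^ c) w) (hlt : w < y w) :
    x (⨆ n : ℕ, (y ^ n) w) = ⨆ n : ℕ, (y ^ n) w ∧ y (⨆ n : ℕ, (y ^ n) w) = ⨆ n : ℕ, (y ^ n) w := by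
  have mono : ∀ i j : ℕ, i ≤ j → (y ^ i) w ≤ (y ^ j) w := by
    intro i j hij
    obtain ⟨k, rfl⟩ := Nat.exists_eq_add_of_le hij
    rw [pow_add, RelIso.mul_apply]
    exact (y ^ i).monotone (pow_ge hlt.le k)
  have shift : ∀ k : ℕ, ⨆ n : ℕ, (y ^ (n + k)) w = ⨆ n : ℕ, (y ^ n) w := by
    intro k
    apply le_antisymm
    · exact iSup_le fun n => le_iSup (fun n : ℕ => (y ^ n) w) (n + k)
    · exact iSup_le fun n => (mono n (n + k) (by omega)).trans
        (le_iSup (fun n : ℕ => (y ^ (n + k)) w) n)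
  constructor
  · refine root_fix hd ?_
    rw [OrderIso.map_iSup]
    conv_rhs => rw [← shift c]
    congr 1
    funext n
    rw [← RelIso.mul_apply, (hc.pow_pow d n).eq, RelIso.mul_apply, hw, ← RelIso.mul_apply,
      ← pow_add]
  · rw [OrderIso.map_iSup]
    conv_rhs => rw [← shift 1]
    congr 1
    funext n
    rw [← RelIso.mul_apply, ← pow_succ']

/-- The infimum of an orbit. -/
lemma inf_fix (hc : Commute x y) {d c : ℕ} (hd : 0 < d) {w : Ω}
    (hw : (x ^ d) w = (y ^ c) w) (hlt : w < y w) :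
    x (⨅ n : ℕ, (y⁻¹ ^ n) w) = ⨅ n : ℕ, (y⁻¹ ^ n) w ∧
      y (⨅ n : ℕ, (y⁻¹ ^ n) w) = ⨅ n : ℕ, (y⁻¹ ^ n) w := by
  have hlt' : y⁻¹ w < w := by
    have := (y⁻¹).lt_iff_lt.mpr hlt
    rwa [RelIso.inv_apply_self] at this
  have mono : ∀ i j : ℕ, i ≤ j → (y⁻¹ ^ j) w ≤ (y⁻¹ ^ i) w := by
    intro i j hij
    obtain ⟨k, rfl⟩ := Nat.exists_eq_add_of_le hij
    rw [pow_add, RelIso.mul_apply]
    exact (y⁻¹ ^ i).monotone (pow_le hlt'.le k)
  have shift : ∀ k : ℕ, ⨅ n : ℕ, (y⁻¹ ^ (n + k)) w = ⨅ n : ℕ, (y⁻¹ ^ n) w := by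
    intro k
    apply le_antisymm
    · exact le_iInf fun n => (iInf_le (fun n : ℕ => (y⁻¹ ^ (n + k)) w) n).trans
        (mono n (n + k) (by omega))
    · exact le_iInf fun n => iInf_le (fun n : ℕ => (y⁻¹ ^ n) w) (n + k)
  have hw' : (x⁻¹ ^ d) w = (y⁻¹ ^ c) w := by
    have h1 : (x ^ d) ((y⁻¹ ^ c) w) = w := by
      rw [← RelIso.mul_apply, (hc.inv_right.pow_pow d c).eq, RelIso.mul_apply, hw,
        ← RelIso.mul_apply, inv_pow, inv_mul_cancel]
      rfl
    have h2 := congrArg (fun t => (x⁻¹ ^ d) t) h1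
    rw [← h2, ← RelIso.mul_apply, inv_pow, inv_mul_cancel]
    rfl
  have hinv : ∀ {f : Ω ≃o Ω} {s : Ω}, f⁻¹ s = s → f s = s := by
    intro f s h
    have := inv_fix h
    rwa [inv_inv] at this
  constructor
  · refine hinv (root_fix hd ?_)
    rw [OrderIso.map_iInf]
    conv_rhs => rw [← shift c]
    congr 1
    funext n
    rw [← RelIso.mul_apply, (hc.inv_inv.pow_pow d n).eq, RelIso.mul_apply, hw',
      ← RelIso.mul_apply, ← pow_add]
  · refine hinv ?_
    rw [OrderIso.map_iInf]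
    conv_rhs => rw [← shift 1]
    congr 1
    funext n
    rw [← RelIso.mul_apply, ← pow_succ']

/-- If the orbit of `w` goes up, both automorphisms move up all points which are not separated
from `w` by a common fixed point. -/
lemma up_of_fix (hc : Commute x y) {d c : ℕ} (hd : 0 < d) (hc0 : 0 < c) {w z : Ω}
    (hw : (x ^ d) w = (y ^ c) w) (hlt : w < y w)
    (hsep : ∀ v, x v = v → y v = v → (v < w → v < z) ∧ (w < v → z < v)) :
    z < y z ∧ z < x z ∧ ∃ e : ℕ, x z ≤ (y ^ e) z := by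
  obtain ⟨s1, s2⟩ := sup_fix hc hd hw hlt
  obtain ⟨i1, i2⟩ := inf_fix hc hd hw hlt
  set V := ⨆ n : ℕ, (y ^ n) w with hV
  set U := ⨅ n : ℕ, (y⁻¹ ^ n) w with hU
  have hwV : w < V := hlt.trans_le (by
    have := le_iSup (fun n : ℕ => (y ^ n) w) 1
    rwa [pow_one] at this)
  have hUw : U < w := by
    have h1 : U ≤ y⁻¹ w := by
      have := iInf_le (fun n : ℕ => (y⁻¹ ^ n) w) 1
      rwa [pow_one] at this
    have h2 := (y⁻¹).lt_iff_lt.mpr hlt
    rw [RelIso.inv_apply_self] at h2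
    exact h1.trans_lt h2
  have hzV : z < V := (hsep V s1 s2).2 hwV
  have hUz : U < z := (hsep U i1 i2).1 hUw
  obtain ⟨n, hn⟩ := iInf_lt_iff.mp hUz
  have hyn : w < (y ^ n) z := by
    have h1 := (y ^ n).lt_iff_lt.mpr hn
    rwa [← RelIso.mul_apply, inv_pow, mul_inv_cancel] at h1
  have hle : ∀ m : ℕ, (y ^ m) w ≤ (y ^ (m + n)) z := by
    intro m
    rw [pow_add, RelIso.mul_apply]
    exact (y ^ m).monotone hyn.le
  refine ⟨?_, ?_, ?_⟩
  · by_contra hz
    push Not at hz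
    refine absurd hzV (not_lt.mpr (iSup_le fun m => (hle m).trans (pow_le hz _)))
  · by_contra hz
    push Not at hz
    have powrel : ∀ m : ℕ, (x ^ (d * m)) w = (y ^ (c * m)) w := by
      intro m
      induction m with
      | zero => simp
      | succ m ih =>
        rw [Nat.mul_succ, Nat.add_comm, pow_add, RelIso.mul_apply, ih, ← RelIso.mul_apply,
          (hc.pow_pow d (c * m)).eq, RelIso.mul_apply, hw, ← RelIso.mul_apply, ← pow_add,
          Nat.mul_succ]
    -- a point below `z` which is moved to `w`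
    set t := (y⁻¹ ^ (c * n)) w with ht
    have htz : t < z := by
      refine lt_of_le_of_lt ?_ hn
      have hlt' : y⁻¹ w ≤ w := by
        have := (y⁻¹).monotone hlt.le
        rwa [RelIso.inv_apply_self] at this
      obtain ⟨k, hk⟩ : ∃ k, c * n = n + k := Nat.exists_eq_add_of_le (Nat.le_mul_of_pos_left n hc0)
      rw [ht, hk, pow_add, RelIso.mul_apply]
      exact (y⁻¹ ^ n).monotone (pow_le hlt' k)
    have hyt : (y ^ (c * n)) t = w := by
      rw [ht, ← RelIso.mul_apply, inv_pow, mul_inv_cancel]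
      rfl
    have hxt : (x ^ (d * n)) t = w := by
      apply (y ^ (c * n)).injective
      rw [← RelIso.mul_apply, ← (hc.pow_pow (d * n) (c * n)).eq, RelIso.mul_apply, hyt, powrel]
    have hfin : ∀ m : ℕ, (y ^ m) w ≤ z := by
      intro m
      have h1 : (y ^ m) w ≤ (y ^ (c * m)) w := by
        obtain ⟨k, hk⟩ : ∃ k, c * m = m + k :=
          Nat.exists_eq_add_of_le (Nat.le_mul_of_pos_left m hc0)
        rw [hk, pow_add, RelIso.mul_apply]
        exact (y ^ m).monotone (pow_ge hlt.le k)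
      refine h1.trans ?_
      rw [← powrel]
      conv_lhs => rw [← hxt]
      rw [← RelIso.mul_apply, ← pow_add]
      exact ((x ^ (d * m + d * n)).monotone htz.le).trans (pow_le hz _)
    exact absurd hzV (not_lt.mpr (iSup_le hfin))
  · have h1 : x z < V := by
      rw [← s1]
      exact x.lt_iff_lt.mpr hzV
    obtain ⟨m, hm⟩ := lt_iSup_iff.mp h1
    exact ⟨m + n, hm.le.trans (hle m)⟩

/-- The signs of two commuting automorphisms. -/
lemma sign (hc : Commute x y) {d c : ℕ} (hd : 0 < d) (hc0 : 0 < c) {w z : Ω}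
    (hw : (x ^ d) w = (y ^ c) w)
    (hsep : ∀ v, x v = v → y v = v → (v < w → v < z) ∧ (w < v → z < v))
    (heq : x w = w → y w = w → z = w) :
    (x z = z ∧ y z = z) ∨ (z < y z ∧ z < x z ∧ ∃ e : ℕ, x z ≤ (y ^ e) z) ∨
      (y z < z ∧ x z < z ∧ ∃ e : ℕ, (y ^ e) z ≤ x z) := by
  rcases lt_trichotomy (y w) w with h | h | h
  · right
    right
    have hinv : ∀ {f : Ω ≃o Ω} {s : Ω}, f⁻¹ s = s → f s = s := by
      intro f s h
      have := inv_fix h
      rwa [inv_inv] at this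
    have hw' : (x⁻¹ ^ d) w = (y⁻¹ ^ c) w := by
      have h1 : (x ^ d) ((y⁻¹ ^ c) w) = w := by
        rw [← RelIso.mul_apply, (hc.inv_right.pow_pow d c).eq, RelIso.mul_apply, hw,
          ← RelIso.mul_apply, inv_pow, inv_mul_cancel]
        rfl
      have h2 := congrArg (fun t => (x⁻¹ ^ d) t) h1
      rw [← h2, ← RelIso.mul_apply, inv_pow, inv_mul_cancel]
      rfl
    have h' : w < y⁻¹ w := by
      have := (y⁻¹).lt_iff_lt.mpr h
      rwa [RelIso.inv_apply_self] at this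
    obtain ⟨k1, k2, e, k3⟩ := up_of_fix hc.inv_inv hd hc0 hw' h' (z := z)
      (fun v h1 h2 => hsep v (hinv h1) (hinv h2))
    refine ⟨?_, ?_, e, ?_⟩
    · have := y.lt_iff_lt.mpr k1
      rwa [RelIso.apply_inv_self] at this
    · have := x.lt_iff_lt.mpr k2
      rwa [RelIso.apply_inv_self] at this
    · have h1 := (x * y ^ e).monotone k3
      rw [(hc.pow_right e).eq, RelIso.mul_apply, RelIso.apply_inv_self, ← (hc.pow_right e).eq,
        RelIso.mul_apply, ← RelIso.mul_apply (y ^ e), inv_pow, mul_inv_cancel] at h1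
      exact h1
  · left
    have h1 : x w = w := by
      refine root_fix hd ?_
      rw [hw]
      exact pow_fix' c h
    rw [heq h1 h]
    exact ⟨h1, h⟩
  · right
    left
    exact up_of_fix hc hd hc0 hw h hsep

/-- The rules for two commuting automorphisms with the same signs. -/
lemma spec_of_sign (hc : Commute x y) {S : Set (Ω ≃o Ω)}
    (hfix : ∀ z, x z = z → y z = z → ∀ g ∈ S, g z = z)
    (h : ∀ z, (x z = z ∧ y z = z) ∨ (z < y z ∧ z < x z ∧ ∃ e : ℕ, x z ≤ (y ^ e) z) ∨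
      (y z < z ∧ x z < z ∧ ∃ e : ℕ, (y ^ e) z ≤ x z)) :
    FillSpec true (some 0) none x y S := by
  have hp : Pos x y := by
    refine ⟨hc.eq, ?_, ?_⟩
    · intro z hz
      rcases h z with ⟨h1, h2⟩ | ⟨-, h2, h3⟩ | ⟨h1, -, -⟩
      · exact ⟨h1.ge, 0, by simp [h1]⟩
      · exact ⟨h2.le, h3⟩
      · exact absurd hz (not_le.mpr h1)
    · intro z hz
      rcases h z with ⟨h1, h2⟩ | ⟨h1, -, -⟩ | ⟨-, h2, h3⟩
      · exact ⟨h1.le, 0, by simp [h1]⟩
      · exact absurd hz (not_le.mpr h1)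
      · exact ⟨h2.le, h3⟩
  have hp' : ∀ k : ℤ, (0 : ℤ) = k → Pos (y ^ (-k) * x) y := by
    rintro k rfl
    rwa [neg_zero, zpow_zero, one_mul]
  refine ⟨fun _ => ⟨hc.eq, fun k hk => hp' k (Option.some_injective _ hk),
    fun k hk => absurd hk (by simp), ⟨0, Or.inl (hp' 0 rfl)⟩⟩, hfix, ?_⟩
  intro _ _ k hk z hz
  obtain rfl := Option.some_injective _ hk
  rw [neg_zero, zpow_zero, one_mul] at hz
  rcases h z with ⟨-, h2⟩ | ⟨-, h2, -⟩ | ⟨-, h2, -⟩
  · exact h2
  · exact absurd hz h2.ne'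
  · exact absurd hz h2.ne

end Pool.Agent.Helper42.GS
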