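import Mathlib
import Pool.Agent.Helper42.GS.Defs
import Pool.Agent.Helper42.GS.Sign

/-!
Generalized solid tori act as solid tori.
-/

set_option autoImplicit false

namespace Pool.Agent.Helper42.GS

open Pool.Agent.Helper42.Th
open Pool.Agent.Helper31.OrderAct
open Pool.Agent.Helper71.Rot
open Pool.Agent.Helper71.Tree
open Pool.Agent.Helper42.PF

variable {Ω : Type*} [CompleteLinearOrder Ω] {G : Type*} [Group G] (ρ : G →* (Ω ≃o Ω))

section fixed

variable {E : Type} [Finite E] {Γ : CMap E} (L : Lab G Γ) {δ : E} {P : Set E} {F : E → Set G}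

/-- A fixed point of the peripheral elements is a fixed point of all elements. -/
lemma fix_elts (hP : ∀ d, d ≠ δ → d ≠ Γ.flip δ → d ∈ P ∨ Γ.flip d ∈ P)
    (hF : ∀ d ∈ P, FillSpec true (some 0) none (ρ (L.M d)) (ρ (L.D d)) (ρ '' F d)) {z : Ω}
    (hD : ρ (L.D δ) z = z) (hM : ρ (L.M δ) z = z) :
    ∀ g ∈ Subgroup.closure (L.elts ∪ ⋃ d ∈ P, F d), ρ g z = z := by
  have H := harm_of_fill L ρ hP hF z
  have h3 : lx L ρ (Γ.flip δ) z = lx L ρ δ z := by
    have h := X_D L ρ δ z
    rwa [hD] at h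
  have h4 : ly L ρ (Γ.flip δ) z = ly L ρ δ z := by
    have h := Y_M L ρ δ z
    rwa [hM] at h
  have hX : ∀ d, lx L ρ d z = lx L ρ δ z := by
    intro d
    obtain ⟨h1, h2, -, -⟩ := H.ext h3.le h4.ge d
    exact le_antisymm h2 (h3 ▸ h1)
  have hY : ∀ d, ly L ρ d z = ly L ρ δ z := by
    intro d
    obtain ⟨-, -, h1, h2⟩ := H.ext h3.le h4.ge d
    exact le_antisymm (h4 ▸ h2) h1
  have hX1 : ∀ d, ρ (L.x d) z = z := by
    obtain ⟨c, hc⟩ := L.x_one
    intro d
    have h1 : lx L ρ d z = lx L ρ c z := (hX d).trans (hX c).symm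
    change ρ (L.x d) z = ρ (L.x c) z at h1
    rw [h1, hc, map_one]
    rfl
  have hY1 : ∀ d, ρ (L.y d) z = z := by
    obtain ⟨c, hc⟩ := L.y_one
    intro d
    have h1 : ly L ρ d z = ly L ρ c z := (hY d).trans (hY c).symm
    change ρ (L.y d) z = ρ (L.y c) z at h1
    rw [h1, hc, map_one]
    rfl
  intro g hg
  induction hg using Subgroup.closure_induction with
  | mem y hy =>
    rcases hy with (⟨d, rfl⟩ | ⟨d, rfl⟩) | hy
    · exact hX1 d
    · exact hY1 d
    · obtain ⟨d, hd⟩ := Set.mem_iUnion.mp hy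
      obtain ⟨hd1, hd2⟩ := Set.mem_iUnion.mp hd
      refine (hF d hd1).fix z ?_ ?_ _ ⟨y, hd2, rfl⟩
      · rw [Lab.M, map_mul, map_inv, RelIso.mul_apply, hY1]
        exact inv_fix (hY1 _)
      · rw [Lab.D, map_mul, map_inv, RelIso.mul_apply, hX1]
        exact inv_fix (hX1 _)
  | one => rw [map_one]; rfl
  | mul a b _ _ ha hb => rw [map_mul, RelIso.mul_apply, hb, ha]
  | inv a _ ha => rw [map_inv]; exact inv_fix ha

end fixed

/-- A product of conjugates of an element which moves up an orbit moves it up. -/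
lemma lt_prod {K : Subgroup G} {x : G} {z : Ω} (hx : ∀ g ∈ K, ρ g z < ρ x (ρ g z)) (l : List G)
    (hl : l ≠ []) (hK : ∀ g ∈ l, g ∈ K) (hxK : x ∈ K) :
    ∀ t ∈ K, ρ t z < ρ (l.map fun g => g * x * g⁻¹).prod (ρ t z) := by
  have one : ∀ g ∈ K, ∀ t ∈ K, ρ t z < ρ (g * x * g⁻¹) (ρ t z) := by
    intro g hg t ht
    have h1 := hx (g⁻¹ * t) (K.mul_mem (K.inv_mem hg) ht)
    have h2 := (ρ g).lt_iff_lt.mpr h1
    rw [← RelIso.mul_apply, ← map_mul, mul_inv_cancel_left, ← RelIso.mul_apply,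
      ← RelIso.mul_apply, ← map_mul, ← map_mul] at h2
    rw [← RelIso.mul_apply, ← map_mul]
    simpa only [mul_assoc] using h2
  induction l with
  | nil => exact absurd rfl hl
  | cons g l ih =>
    intro t ht
    have hg := hK g (by simp)
    rw [List.map_cons, List.prod_cons, map_mul, RelIso.mul_apply]
    rcases eq_or_ne l [] with rfl | h
    · simpa using one g hg t ht
    · have hK' : ∀ u ∈ l, u ∈ K := fun u hu => hK u (by simp [hu])
      refine (ih h hK' t ht).trans ?_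
      have hp : (l.map fun g => g * x * g⁻¹).prod ∈ K := by
        refine K.list_prod_mem fun u hu => ?_
        obtain ⟨v, hv, rfl⟩ := List.mem_map.mp hu
        exact K.mul_mem (K.mul_mem (hK' v hv) hxK) (K.inv_mem (hK' v hv))
      have h2 := one g hg _ (K.mul_mem hp ht)
      rwa [map_mul, RelIso.mul_apply] at h2

/-- A generalized torsion element has a fixed point next to every point. -/
lemma exists_fix_of_torsion {S : Set G} {x : G} (hx : x ∈ Subgroup.closure S)
    (h : Torsion S x) (z : Ω) :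
    ∃ w, ρ x w = w ∧ (∃ g ∈ Subgroup.closure S, ρ g z ≤ w) ∧
      ∃ g ∈ Subgroup.closure S, w ≤ ρ g z := by
  set K := Subgroup.closure S with hK
  obtain ⟨l, hl, hlK, h1⟩ := h
  have hdn : ∃ g ∈ K, ρ x (ρ g z) ≤ ρ g z := by
    by_contra hn
    push Not at hn
    have h2 := lt_prod ρ hn l hl hlK hx 1 K.one_mem
    rw [h1, map_one] at h2
    exact lt_irrefl _ h2
  have hup : ∃ g ∈ K, ρ g z ≤ ρ x (ρ g z) := by
    by_contra hn
    push Not at hn
    -- the inverse moves up, and the inverse of the product is a product of conjugates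
    have h2 : ∀ g ∈ K, ρ g z < ρ x⁻¹ (ρ g z) := by
      intro g hg
      have h3 := (ρ x⁻¹).lt_iff_lt.mpr (hn g hg)
      rwa [← RelIso.mul_apply, ← map_mul, inv_mul_cancel, map_one] at h3
    have h3 := lt_prod ρ h2 l.reverse (by simpa using hl)
      (fun g hg => hlK g (by simpa using hg)) (K.inv_mem hx) 1 K.one_mem
    have h4 : (l.reverse.map fun g => g * x⁻¹ * g⁻¹).prod = 1 := by
      have h5 : (l.map fun g => g * x * g⁻¹).prod⁻¹ =
          (l.reverse.map fun g => g * x⁻¹ * g⁻¹).prod := by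
        rw [List.prod_inv_reverse, ← List.map_reverse, ← List.map_reverse, List.map_map]
        congr 1
        apply List.map_congr_left
        intro g _
        simp [mul_assoc]
      rw [← h5, h1, inv_one]
    rw [h4, map_one] at h3
    exact lt_irrefl _ h3
  obtain ⟨g₁, hg₁, e1⟩ := hdn
  obtain ⟨g₂, hg₂, e2⟩ := hup
  obtain ⟨w, hw, h5, h6⟩ := exists_fix (ρ x) e2 e1
  refine ⟨w, hw, ?_, ?_⟩
  · rcases h5 with h5 | h5
    · exact ⟨g₂, hg₂, h5⟩
    · exact ⟨g₁, hg₁, h5⟩
  · rcases h6 with h6 | h6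
    · exact ⟨g₂, hg₂, h6⟩
    · exact ⟨g₁, hg₁, h6⟩

/-- Generalized solid tori act as solid tori. -/
theorem like_spec {S : Set G} {m a : G} (hc : Commute m a) (hm : m ∈ Subgroup.closure S)
    (ha : a ∈ Subgroup.closure S) {d c : ℕ} (hd : 0 < d) (hc0 : 0 < c)
    (h : Torsion S (m ^ d * (a ^ c)⁻¹))
    (hfix : ∀ z, ρ m z = z → ρ a z = z → ∀ g ∈ Subgroup.closure S, ρ g z = z) :
    FillSpec true (some 0) none (ρ m) (ρ a) (ρ '' S) := by
  have hc' : Commute (ρ m) (ρ a) := hc.map ρ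
  refine spec_of_sign hc' ?_ ?_
  · rintro z h1 h2 _ ⟨g, hg, rfl⟩
    exact hfix z h1 h2 g (Subgroup.subset_closure hg)
  intro z
  set K := Subgroup.closure S with hK
  obtain ⟨w, hw, ⟨g₁, hg₁, h1⟩, ⟨g₂, hg₂, h2⟩⟩ := exists_fix_of_torsion ρ
    (K.mul_mem (K.pow_mem hm d) (K.inv_mem (K.pow_mem ha c))) h z
  have hw' : (ρ m ^ d) w = (ρ a ^ c) w := by
    have hcc : Commute (m ^ d) ((a ^ c)⁻¹) := (hc.pow_pow d c).inv_right
    rw [hcc.eq, map_mul, map_inv, map_pow, map_pow, RelIso.mul_apply] at hw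
    have h3 := congrArg (ρ a ^ c) hw
    rwa [RelIso.apply_inv_self] at h3
  refine sign hc' hd hc0 hw' ?_ ?_
  · intro v h3 h4
    have hv := hfix v h3 h4
    constructor
    · intro h5
      by_contra hn
      push Not at hn
      have h6 := (ρ g₂).monotone hn
      rw [hv g₂ hg₂] at h6
      exact absurd h5 (not_lt.mpr (h2.trans h6))
    · intro h5
      by_contra hn
      push Not at hn
      have h6 := (ρ g₁).monotone hn
      rw [hv g₁ hg₁] at h6
      exact absurd h5 (not_lt.mpr (h6.trans h1))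
  · intro h3 h4
    have hv := hfix w h3 h4
    apply le_antisymm
    · apply (ρ g₁).le_iff_le.mp
      rw [hv g₁ hg₁]
      exact h1
    · apply (ρ g₂).le_iff_le.mp
      rw [hv g₂ hg₂]
      exact h2

end Pool.Agent.Helper42.GS
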