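import Mathlib
import Pool.Agent.Helper42.GS.Spec

/-!
Alternating diagrams the crossing balls of which are filled with solid tori, pieces and
generalized solid tori.
-/

set_option autoImplicit false

namespace Pool.Agent.Helper42.GS

open Pool.Agent.Helper42.Th
open Pool.Agent.Helper31.OrderAct
open Pool.Agent.Helper71.Rot
open Pool.Agent.Helper71.Tree
open Pool.Agent.Helper42.PF

section spec

variable {G : Type*} [Group G]

lemma mem_closure_D {E : Type} {Γ : CMap E} (L : Lab G Γ) (T : Set G) (d : E) :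
    L.D d ∈ Subgroup.closure (L.elts ∪ T) := by
  have h : ∀ d, L.x d ∈ Subgroup.closure (L.elts ∪ T) := fun d =>
    Subgroup.subset_closure (Or.inl (Or.inl ⟨d, rfl⟩))
  exact mul_mem (inv_mem (h _)) (h d)

lemma mem_closure_M {E : Type} {Γ : CMap E} (L : Lab G Γ) (T : Set G) (d : E) :
    L.M d ∈ Subgroup.closure (L.elts ∪ T) := by
  have h : ∀ d, L.y d ∈ Subgroup.closure (L.elts ∪ T) := fun d =>
    Subgroup.subset_closure (Or.inl (Or.inr ⟨d, rfl⟩))
  exact mul_mem (inv_mem (h _)) (h d)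

/-- Commuting words in two commuting elements. -/
lemma words_comm {x y : G} (h : Commute x y) (p q r s : ℤ) :
    Commute (x ^ p * y ^ q) (x ^ r * y ^ s) :=
  (((Commute.refl x).zpow_zpow p r).mul_right (h.zpow_zpow p s)).mul_left
    ((h.symm.zpow_zpow q r).mul_right ((Commute.refl y).zpow_zpow q s))

/-- What a filling means for the action. -/
theorem spec_of_fill {Ω : Type*} [CompleteLinearOrder Ω] (ρ : G →* (Ω ≃o Ω)) {m a : G}
    {S : Set G} (h : Fill m a S) : FillSpec true (some 0) none (ρ m) (ρ a) (ρ '' S) := by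
  induction h with
  | solid m a d c hd hc h =>
    rw [Set.image_empty]
    refine solid_spec (d := d) (c := c) (by exact_mod_cast hd) ?_ ?_ ?_
    · intro k' hk'
      obtain rfl := Option.some_injective _ hk'
      refine ⟨by simp, fun _ h2 => ?_⟩
      rw [zero_mul] at h2
      exact absurd (by exact_mod_cast h2.symm) hc.ne'
    · intro k' hk'
      exact absurd hk' (by simp)
    · rw [zpow_natCast, zpow_natCast, ← map_pow, ← map_pow, h]
  | cone m a Γ L δ hl hb P F hP hF P₁ Q₁ P₂ Q₂ hP₁ hQ₁ hP₂ hQ₂ hdet hm ha ih =>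
    have hps := lab_spec L ρ hl hb hP (fun d hd => ih d hd)
    have := PieceSpec.glue (strict := true) (lo := some 0) (hi := none) hps (P₁ := P₁) (Q₁ := Q₁)
      (P₂ := P₂) (Q₂ := Q₂) (by exact_mod_cast hP₂) (by exact_mod_cast hQ₂)
      (by exact_mod_cast hdet) (by
        intro k' hk'
        obtain rfl := Option.some_injective _ hk'
        rw [zero_mul, zero_mul]
        exact ⟨by exact_mod_cast hP₁, by exact_mod_cast hQ₁⟩) (by
        intro k' hk'
        exact absurd hk' (by simp))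
    rw [hm, ha, map_mul, map_mul, map_pow, map_pow, map_pow, map_pow]
    simpa only [zpow_natCast] using this
  | like m a Γ L δ P F hP hF p q r s hdet hm ha d c hd hc h ih =>
    have hDM : Commute (L.D δ) (L.M δ) := (comm_MD L δ).symm
    have hDK := mem_closure_D L (⋃ d ∈ P, F d) δ
    have hMK := mem_closure_M L (⋃ d ∈ P, F d) δ
    have hcomm : Commute m a := by
      rw [hm, ha]
      exact words_comm hDM p q r s
    refine like_spec ρ hcomm ?_ ?_ hd hc h ?_
    · rw [hm]
      exact mul_mem (zpow_mem hDK _) (zpow_mem hMK _)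
    · rw [ha]
      exact mul_mem (zpow_mem hDK _) (zpow_mem hMK _)
    · intro z h1 h2
      rw [hm, map_mul, map_zpow, map_zpow] at h1
      rw [ha, map_mul, map_zpow, map_zpow] at h2
      obtain ⟨h3, h4⟩ := fix_of_words (hDM.map ρ) hdet h1 h2
      exact fix_elts ρ L hP (fun d hd => ih d hd) h3 h4

end spec

section positive

variable {E : Type} [Finite E] {Γ : CMap E} {G : Type*} [Group G] (L : Lab G Γ)
  {Ω : Type*} [CompleteLinearOrder Ω] (ρ : G →* (Ω ≃o Ω)) {P : Set E} {F : E → Set G}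

/-- If all edges are positive, all peripheral elements fix all points. -/
lemma all_fix (hP : ∀ d, d ∈ P ∨ Γ.flip d ∈ P)
    (hF : ∀ d ∈ P, FillSpec true (some 0) none (ρ (L.M d)) (ρ (L.D d)) (ρ '' F d)) (z : Ω)
    (d : E) : ρ (L.D d) z = z ∧ ρ (L.M d) z = z := by
  have pos : ∀ d, lx L ρ (Γ.flip d) z ≤ lx L ρ d z → ly L ρ (Γ.flip d) z ≤ ly L ρ d z := by
    intro e h
    by_cases he : e = d ∨ e = Γ.flip d
    · -- use another exceptional edge, or the edge itself
      rcases hP e with h1 | h1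
      · have hcd : ρ (L.M e) * ρ (L.D e) = ρ (L.D e) * ρ (L.M e) := by
          rw [← map_mul, ← map_mul]
          exact congrArg ρ (comm_MD L e)
        have h2 := ((hF e h1).bd hcd).lower 0 rfl
        rw [neg_zero, zpow_zero, one_mul] at h2
        exact (up_M L ρ).mp (h2.up z ((up_D L ρ).mpr h)).1
      · have hcd : ρ (L.M (Γ.flip e)) * ρ (L.D (Γ.flip e)) =
            ρ (L.D (Γ.flip e)) * ρ (L.M (Γ.flip e)) := by
          rw [← map_mul, ← map_mul]
          exact congrArg ρ (comm_MD L (Γ.flip e))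
        have h2 := ((hF _ h1).bd hcd).lower 0 rfl
        rw [neg_zero, zpow_zero, one_mul] at h2
        have h4 := (dn_M L ρ (d := Γ.flip e) (z := z)).mp (h2.dn z ((dn_D L ρ).mpr (by
          rw [Γ.flip_flip]
          exact h))).1
        rwa [Γ.flip_flip] at h4
    · push Not at he
      exact (harm_of_fill (δ := d) L ρ (fun d _ _ => hP d) hF z).pos e he.1 he.2 h
  have str : ∀ d, ly L ρ (Γ.flip d) z = ly L ρ d z → lx L ρ (Γ.flip d) z = lx L ρ d z := by
    intro e h
    rcases hP e with h1 | h1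
    · have hcd : ρ (L.M e) * ρ (L.D e) = ρ (L.D e) * ρ (L.M e) := by
        rw [← map_mul, ← map_mul]
        exact congrArg ρ (comm_MD L e)
      have h3 := (hF e h1).str hcd rfl 0 rfl z
      rw [neg_zero, zpow_zero, one_mul] at h3
      have h4 := h3 (le_antisymm ((dn_M L ρ).mpr h.ge) ((up_M L ρ).mpr h.le))
      rw [← X_D L ρ e z, h4]
    · have hcd : ρ (L.M (Γ.flip e)) * ρ (L.D (Γ.flip e)) =
          ρ (L.D (Γ.flip e)) * ρ (L.M (Γ.flip e)) := by
        rw [← map_mul, ← map_mul]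
        exact congrArg ρ (comm_MD L (Γ.flip e))
      have h3 := (hF _ h1).str hcd rfl 0 rfl z
      rw [neg_zero, zpow_zero, one_mul] at h3
      have h4 := h3 (le_antisymm ((dn_M L ρ).mpr (by
        rw [Γ.flip_flip]
        exact h.le)) ((up_M L ρ).mpr (by
        rw [Γ.flip_flip]
        exact h.ge)))
      have h5 := X_D L ρ (Γ.flip e) z
      rw [Γ.flip_flip, h4] at h5
      exact h5.symm
  have xr : ∀ d, lx L ρ (Γ.rot d) z = lx L ρ d z := fun d => by
    change ρ (L.x (Γ.rot d)) z = ρ (L.x d) z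
    rw [L.x_rot]
  have yr : ∀ d, ly L ρ (Γ.flip (Γ.rot d)) z = ly L ρ d z := fun d => by
    change ρ (L.y (Γ.flip (Γ.rot d))) z = ρ (L.y d) z
    rw [L.y_rot]
  -- the maximum is attained everywhere
  have : Nonempty E := ⟨d⟩
  obtain ⟨m, hm⟩ := Finite.exists_max fun d => lx L ρ d z
  have hW : ∀ d, Γ.rot d ∈ {d | lx L ρ d z = lx L ρ m z} ↔ d ∈ {d | lx L ρ d z = lx L ρ m z} := by
    intro d
    change lx L ρ (Γ.rot d) z = _ ↔ lx L ρ d z = _
    rw [xr]
  have hle : ∀ d ∈ {d | lx L ρ d z = lx L ρ m z}, ly L ρ d z ≤ ly L ρ (Γ.rot d) z := by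
    intro d hd
    have h1 := (hW d).mpr hd
    have h4 := pos (Γ.rot d) (by
      rw [show lx L ρ (Γ.rot d) z = lx L ρ m z from h1]
      exact hm _)
    rwa [yr] at h4
  have hconst := Harm.chain_const Γ (fun d => ly L ρ d z) {d | lx L ρ d z = lx L ρ m z}
    (fun d hd => (hW d).mpr hd) hle
  have hflip : ∀ d ∈ {d | lx L ρ d z = lx L ρ m z}, lx L ρ (Γ.flip d) z = lx L ρ d z := by
    intro d hd
    obtain ⟨e, rfl⟩ := Γ.rot.surjective d
    have he := (hW e).mp hd
    apply str
    rw [yr]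
    exact (hconst e he).symm
  have huniv := Γ.conn {d | lx L ρ d z = lx L ρ m z} ⟨m, rfl⟩ fun d hd =>
    ⟨(hW d).mpr hd, (hflip d hd).trans hd⟩
  have hx : ∀ d, lx L ρ (Γ.flip d) z = lx L ρ d z := by
    intro d
    apply hflip
    rw [huniv]
    trivial
  have h1 := pos d (hx d).le
  have h2 := pos (Γ.flip d) (by
    rw [Γ.flip_flip]
    exact (hx d).ge)
  rw [Γ.flip_flip] at h2
  exact ⟨le_antisymm ((dn_D L ρ).mpr (hx d).ge) ((up_D L ρ).mpr (hx d).le),
    le_antisymm ((dn_M L ρ).mpr h2) ((up_M L ρ).mpr h1)⟩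

end positive

section main

variable {E : Type} [Finite E] {G : Type*} [Group G] (Γ : CMap E) (L : Lab G Γ) (δ : E)
  (P : Set E) (F : E → Set G) (F₀ : Set G)

/-- The group fixes a point of the order of its lower sets which is fixed by the peripheral
elements. -/
lemma fix_group {Ω : Type*} [CompleteLinearOrder Ω] (ρ : G →* (Ω ≃o Ω))
    (hP : ∀ d, d ≠ δ → d ≠ Γ.flip δ → d ∈ P ∨ Γ.flip d ∈ P)
    (hpos : ∀ d ∈ P, Fill (L.M d) (L.D d) (F d))
    (hgen : Subgroup.closure ((L.elts ∪ ⋃ d ∈ P, F d) ∪ F₀) = ⊤) {z : Ω}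
    (hD : ρ (L.D δ) z = z) (hM : ρ (L.M δ) z = z) (h₀ : ∀ g ∈ F₀, ρ g z = z) (g : G) :
    ρ g z = z := by
  have hall := fix_elts ρ L hP (fun d hd => spec_of_fill ρ (hpos d hd)) hD hM
  have hg : g ∈ Subgroup.closure ((L.elts ∪ ⋃ d ∈ P, F d) ∪ F₀) := by
    rw [hgen]
    trivial
  induction hg using Subgroup.closure_induction with
  | mem y hy =>
    rcases hy with hy | hy
    · exact hall y (Subgroup.subset_closure hy)
    · exact h₀ y hy
  | one => rw [map_one]; rfl
  | mul a b _ _ ha hb => rw [map_mul, RelIso.mul_apply, hb, ha]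
  | inv a _ ha => rw [map_inv]; exact inv_fix ha

/-- The main theorem. -/
theorem main
    (hP : ∀ d, d ≠ δ → d ≠ Γ.flip δ → d ∈ P ∨ Γ.flip d ∈ P)
    (hpos : ∀ d ∈ P, Fill (L.M d) (L.D d) (F d))
    (h : Fill (L.M δ) (L.D δ) F₀ ∨ ∃ p q r s : ℤ, p * s ≠ q * r ∧
      Fill (L.D δ ^ p * L.M δ ^ q) (L.D δ ^ r * L.M δ ^ s) F₀ ∧
      Torsion ((L.elts ∪ ⋃ d ∈ P, F d) ∪ F₀) (L.D δ ^ p * L.M δ ^ q))
    (hgen : Subgroup.closure ((L.elts ∪ ⋃ d ∈ P, F d) ∪ F₀) = ⊤) :
    ¬ (Nontrivial G ∧ ∃ _ : LinearOrder G, ∀ f g h : G, g ≤ h → f * g ≤ f * h) := by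
  rintro ⟨hnt, ⟨ho, hmul⟩⟩
  set ρ := cutHom hmul with hρ
  have hIic : ∀ u v : G, ρ u (LowerSet.Iic v) = LowerSet.Iic (u * v) := by
    intro u v
    ext w
    change w ∈ cutHom hmul u (LowerSet.Iic v) ↔ w ∈ LowerSet.Iic (u * v)
    rw [mem_cutHom]
    change u⁻¹ * w ≤ v ↔ w ≤ u * v
    constructor
    · intro h
      have := hmul u _ _ h
      rwa [mul_inv_cancel_left] at this
    · intro h
      have := hmul u⁻¹ _ _ h
      rwa [inv_mul_cancel_left] at this
  -- there is a point between two elements which is fixed by the group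
  obtain ⟨z, hall, ⟨t, ht⟩, ⟨s, hs⟩⟩ : ∃ z : LowerSet G, (∀ g : G, ρ g z = z) ∧
      (∃ t : G, t ∈ z) ∧ ∃ s : G, z ≤ LowerSet.Iic s := by
    rcases h with h | ⟨p, q, r, s, hdet, hfill, htors⟩
    · refine ⟨LowerSet.Iic 1, ?_, ⟨1, le_refl (1 : G)⟩, 1, le_rfl⟩
      set z : LowerSet G := LowerSet.Iic 1
      classical
      have h1 : ∀ d, d ∈ insert δ P ∨ Γ.flip d ∈ insert δ P := by
        intro d
        by_cases e1 : d = δ
        · exact Or.inl (Or.inl e1)
        by_cases e2 : d = Γ.flip δ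
        · right
          left
          rw [e2, Γ.flip_flip]
        · exact (hP d e1 e2).imp Or.inr Or.inr
      have h2 : ∀ d ∈ insert δ P, FillSpec true (some 0) none (ρ (L.M d)) (ρ (L.D d))
          (ρ '' (fun e => if e = δ then F₀ else F e) d) := by
        intro d hd
        by_cases e1 : d = δ
        · subst e1
          simpa using spec_of_fill ρ h
        · have h3 : d ∈ P := hd.resolve_left e1
          simpa [e1] using spec_of_fill ρ (hpos d h3)
      obtain ⟨h3, h4⟩ := all_fix L ρ h1 h2 z δ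
      refine fix_group Γ L δ P F F₀ ρ hP hpos hgen h3 h4 ?_
      intro g hg
      exact (spec_of_fill ρ h).fix z h4 h3 _ ⟨g, hg, rfl⟩
    · have hDM : Commute (L.D δ) (L.M δ) := (comm_MD L δ).symm
      obtain ⟨z, hz, ⟨g₁, -, h1⟩, ⟨g₂, -, h2⟩⟩ := exists_fix_of_torsion ρ (S := _)
        (by rw [hgen]; trivial) htors (LowerSet.Iic (1 : G))
      have hcz : ρ (L.D δ ^ r * L.M δ ^ s) z = z := by
        have h3 := (spec_of_fill ρ hfill).str
          ((words_comm hDM p q r s).map ρ).eq rfl 0 rfl z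
        rw [neg_zero, zpow_zero, one_mul] at h3
        exact h3 hz
      obtain ⟨hD, hM⟩ : ρ (L.D δ) z = z ∧ ρ (L.M δ) z = z := by
        refine fix_of_words (hDM.map ρ) hdet (w := z) ?_ ?_
        · rw [← map_zpow, ← map_zpow, ← map_mul]
          exact hz
        · rw [← map_zpow, ← map_zpow, ← map_mul]
          exact hcz
      refine ⟨z, fix_group Γ L δ P F F₀ ρ hP hpos hgen hD hM ?_, ⟨g₁, ?_⟩, ⟨g₂, ?_⟩⟩
      · intro g hg
        exact (spec_of_fill ρ hfill).fix z hz hcz _ ⟨g, hg, rfl⟩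
      · rw [hIic, mul_one] at h1
        exact h1 (le_refl g₁)
      · rw [hIic, mul_one] at h2
        exact h2
  have htop : ∀ g : G, g ∈ z := by
    intro g
    rw [← hall (g * t⁻¹)]
    change g ∈ cutHom hmul (g * t⁻¹) z
    rw [mem_cutHom]
    simpa using ht
  have hle : ∀ g : G, g ≤ s := fun g => hs (htop g)
  have key : ∀ u v : G, u ≤ v := by
    intro u v
    have h1 := hmul (s * v⁻¹)⁻¹ _ _ ((hle (s * v⁻¹ * u)).trans
      (le_of_eq (by rw [inv_mul_cancel_right]) : s ≤ s * v⁻¹ * v))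
    rwa [inv_mul_cancel_left, inv_mul_cancel_left] at h1
  obtain ⟨u, v, huv⟩ := exists_pair_ne G
  exact huv (le_antisymm (key u v) (key v u))

end main

end Pool.Agent.Helper42.GS
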